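import Pool.Agent.Work.MP_7ba843_gt.N.Main

open Set Topology
open scoped Manifold ContDiff

namespace Pool.Agent.Results.MP_7ba843_gt.AllGenera

open Pool.Agent.Work.MP_7ba843_gt Pool.Agent.Work.MP_7ba843_gt.N

/-- For every `N` there is a closed connected oriented smooth 4-manifold `X` with Euler
characteristic `0` and fundamental group generated by two elements which contains, for every genus
`3 ≤ g ≤ N`, a smoothly embedded surface `S` of genus `g`, the boundary of the smoothly embedded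
handlebody `Φ {0 ≤ F}`, that carries the fundamental group of `X` and is not the core of any
trisection of `X`. -/
theorem result (N : ℕ) :
    ∃ (X : Type) (_ : TopologicalSpace X) (_ : ChartedSpace (EuclideanSpace ℝ (Fin 4)) X),
      IsManifold (𝓡 4) ∞ X ∧ T2Space X ∧ CompactSpace X ∧ ConnectedSpace X ∧
      OrientedAtlas X ∧ HasEulerChar X 0 ∧
      (∀ x : X, ∃ a b : FundamentalGroup X x, Subgroup.closure {a, b} = ⊤) ∧
      ∀ g : ℕ, 3 ≤ g → g ≤ N →
        ∃ (F : (Fin 3 → ℝ) → ℝ) (O : TopologicalSpace.Opens (Fin 3 → ℝ)) (Φ : O → X) (S : Set X),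
          ContDiff ℝ ∞ F ∧ (∀ x, F x = 0 → fderiv ℝ F x ≠ 0) ∧ {x | 0 ≤ F x} ⊆ O ∧
          Nonempty ({x | 0 ≤ F x} ≃ₜ Th 1 g) ∧
          Manifold.IsSmoothEmbedding 𝓘(ℝ, Fin 3 → ℝ) (𝓡 4) ∞ Φ ∧
          S = Φ '' {x | F x.1 = 0} ∧
          (∀ x : S, Function.Surjective
            (FundamentalGroup.map (⟨Subtype.val, continuous_subtype_val⟩ : C(S, X)) x)) ∧
          ¬ ∃ T : Fin 3 → Set X, Trisection g S T :=
  main N

end Pool.Agent.Results.MP_7ba843_gt.AllGenera
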