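import Pool.Agent.Work.MP_7ba843_gt.N.Main
import Pool.Agent.Work.MP_7ba843_gt.Y.Main

open Set
open scoped ContDiff

namespace Pool.Agent.Results.MP_7ba843_gt.Full

open Pool.Agent.Work.MP_7ba843_gt

/-- First part: the question has a negative answer, in every genus at least three (`NotCores`).
Second part: which surfaces are cores. For every `g` there is a smooth model `{0 ≤ F}` of the
handlebody of genus `g` for which the criterion `CoresFP` holds in all closed connected smooth
4-manifolds. -/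
theorem result : (∀ n : ℕ, S.NotCores n) ∧
    ∀ g : ℕ, ∃ F : (Fin 3 → ℝ) → ℝ, ContDiff ℝ ∞ F ∧ (∀ x, F x = 0 → fderiv ℝ F x ≠ 0) ∧
      Nonempty ({x | 0 ≤ F x} ≃ₜ N.Th 1 g) ∧ S.CoresFP (EuclideanSpace ℝ (Fin 4)) F g :=
  ⟨N.main, Y.cores⟩

end Pool.Agent.Results.MP_7ba843_gt.Full
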